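import Pool.Agent.H62.UN.Targets

/-!
# Board `unt_modules`, row HGF: functions which are regular on the generic fibre
-/

set_option autoImplicit false

namespace Pool.Agent.H5.UNT

open Polynomial Pool.Agent.H17.UN Pool.Agent.H62.UN

section

variable {κ E : Type} [Field κ] [Field E] [Algebra κ E] {τ : E} {o : E → ℤ}

theorem val_one (ho : IsVal o) : o 1 = 0 := by
  have h := ho.mul 1 1 one_ne_zero one_ne_zero
  rw [mul_one] at h
  omega

theorem pl_decomp {π : κ[X]} (hπ : Irreducible π) (p : κ[X]) (hp : p ≠ 0) :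
    ∃ (n : ℕ) (g : κ[X]), ¬ π ∣ g ∧ p = π ^ n * g := by
  have h1 : FiniteMultiplicity π p := FiniteMultiplicity.of_not_isUnit hπ.not_isUnit hp
  obtain ⟨g, hg, hg'⟩ := h1.exists_eq_pow_mul_and_not_dvd
  exact ⟨_, g, hg', hg⟩

theorem pl_nn {π : κ[X]} (hπ : Irreducible π) (ho : IsPl τ π o) (p : κ[X]) (hp : p ≠ 0) :
    0 ≤ o (aeval τ p) := by
  obtain ⟨n, g, hg, rfl⟩ := pl_decomp hπ p hp
  rw [ho n g hg]
  exact Int.natCast_nonneg n

theorem pl_pos {π : κ[X]} (hπ : Irreducible π) (ho : IsPl τ π o) (p : κ[X]) (hp : p ≠ 0) :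
    0 < o (aeval τ p) ↔ π ∣ p := by
  obtain ⟨n, g, hg, rfl⟩ := pl_decomp hπ p hp
  rw [ho n g hg]
  constructor
  · intro h
    exact (dvd_pow_self π (by omega)).mul_right g
  · intro h
    by_contra hn
    have hn0 : n = 0 := by omega
    rw [hn0, pow_zero, one_mul] at h
    exact hg h

theorem pl_zero {π : κ[X]} (ho : IsPl τ π o) (p : κ[X]) (hp : ¬ π ∣ p) :
    o (aeval τ p) = 0 := by
  have h := ho 0 p hp
  rw [pow_zero, one_mul] at h
  exact h

end

theorem ks_aeval {k F : Type} [Field k] [Field F] [Algebra k F] (s : F) (p : k[X]) :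
    ∃ c : ks k s, (c : F) = aeval s p := by
  have hs : s ∈ ks k s := IntermediateField.mem_adjoin_simple_self k s
  refine ⟨aeval (⟨s, hs⟩ : ks k s) p, ?_⟩
  exact (aeval_algHom_apply (IntermediateField.val (ks k s)) (⟨s, hs⟩ : ks k s) p).symm

theorem pf_HGF : T_HGF := by
  intro hSPN hQIR hHEX hHUN k F _ _ _ _ P Q y₀ z₀ s y z τ hT f hf hreg
  obtain ⟨Qs, hQs⟩ := ks_aeval s Q
  obtain ⟨ys, hys⟩ := ks_aeval s y₀
  obtain ⟨zs, hzs⟩ := ks_aeval s z₀
  obtain ⟨hirr, hcop⟩ := hQIR k F P Q y₀ z₀ s y z τ hT Qs ys zs hQs hys hzs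
  have hzs0 : zs ≠ 0 := by
    intro h
    have h1 : aeval s z₀ = 0 := by
      rw [← hzs, h]
      rfl
    have h2 : Transcendental k s := by
      have := hT.cb.ind.transcendental 0
      exact this
    exact hT.z0 ((transcendental_iff.1 h2) z₀ h1)
  have htr : ∀ p : (ks k s)[X], p ≠ 0 → aeval τ p ≠ 0 := fun p hp h =>
    hp ((transcendental_iff.1 hT.tr) p h)
  obtain ⟨q, hq⟩ : ∃ q : (ks k s)[X], q = X ^ 2 - C Qs := ⟨_, rfl⟩
  obtain ⟨q2, hq2⟩ : ∃ q2 : (ks k s)[X], q2 = C zs * X ^ 2 + C (2 * ys) * X + C (Qs * zs) :=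
    ⟨_, rfl⟩
  rw [← hq, ← hq2] at hcop
  rw [← hq] at hirr
  have hqm : q.Monic := by
    rw [hq]
    exact monic_X_pow_sub_C Qs two_ne_zero
  have hqd : q.natDegree = 2 := by
    rw [hq]
    exact natDegree_X_pow_sub_C
  have hq2d : q2.natDegree = 2 := by
    rw [hq2]
    exact natDegree_quadratic hzs0
  have hq20 : q2 ≠ 0 := by
    intro h
    rw [h, natDegree_zero] at hq2d
    omega
  have hqτ : aeval τ q = τ ^ 2 - aeval s Q := by
    rw [hq, map_sub, map_pow, aeval_X, aeval_C, ← hQs]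
    rfl
  have hq2τ : z * aeval τ q = aeval τ q2 := by
    rw [hqτ, hT.fz, hq2, map_add, map_add, map_mul, map_mul, map_pow, aeval_X, aeval_C, aeval_C,
      aeval_C, map_mul, map_mul, map_ofNat, ← hzs, ← hys, ← hQs]
    rfl
  have hz : z ≠ 0 := by
    intro h
    rw [h, zero_mul] at hq2τ
    exact htr q2 hq20 hq2τ.symm
  obtain ⟨g, h, hgh, hhm, hg0, hfgh⟩ := (hHUN (ks k s) F τ hT.tr hT.gen).1 f hf
  have hh0 : h ≠ 0 := hhm.ne_zero
  have hfh : f * aeval τ h = aeval τ g := by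
    rw [hfgh, div_mul_cancel₀ _ (htr h hh0)]
  -- the irreducible factors of h
  have hfac : ∀ π : (ks k s)[X], π.Monic → Irreducible π → π ∣ h → π = q := by
    intro π hπm hπ hπh
    obtain ⟨o, hov, hop⟩ := (hHEX (ks k s) F τ hT.tr hT.gen).1 π hπm hπ
    have htriv : Triv (k := k) s o := by
      intro c
      rcases eq_or_ne c 0 with hc | hc
      · rw [hc]
        exact hov.zero
      · have h1 : ¬ π ∣ C c := fun h2 => hπ.not_isUnit
          (isUnit_of_dvd_unit h2 (isUnit_C.2 (isUnit_iff_ne_zero.2 hc)))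
        have h2 := pl_zero hop (C c) h1
        rw [aeval_C] at h2
        exact h2
    have h1 : 0 < o (aeval τ h) := (pl_pos hπ hop h hh0).2 hπh
    have h2 : o (aeval τ g) = 0 := by
      apply pl_zero hop
      intro h3
      exact hπ.not_isUnit (hgh.isUnit_of_dvd' h3 hπh)
    have h3 := hov.mul f (aeval τ h) hf (htr h hh0)
    rw [hfh, h2] at h3
    have h4 : o z < 0 := by
      by_contra h5
      have := hreg o hov htriv (not_lt.1 h5)
      omega
    have h5 := hov.mul z (aeval τ q) hz (htr q hqm.ne_zero)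
    rw [hq2τ] at h5
    have h6 := pl_nn hπ hop q2 hq20
    have h7 : π ∣ q := (pl_pos hπ hop q hqm.ne_zero).1 (by omega)
    exact eq_of_monic_of_associated hπm hqm (hπ.associated_of_dvd hirr h7)
  obtain ⟨n, h1, hqh1, hh⟩ := pl_decomp hirr h hh0
  have hh1m : h1.Monic := by
    have h2 : (q ^ n * h1).Monic := by
      rw [← hh]
      exact hhm
    exact (hqm.pow n).of_mul_monic_left h2
  have hh1u : IsUnit h1 := by
    by_contra hu
    obtain ⟨π, hπm, hπ, hπh⟩ := exists_monic_irreducible_factor h1 hu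
    have h2 := hfac π hπm hπ (by
      rw [hh]
      exact hπh.mul_left _)
    rw [h2] at hπh
    exact hqh1 hπh
  have hh1 : h1 = 1 := hh1m.eq_one_of_isUnit hh1u
  rw [hh1, mul_one] at hh
  -- the degree
  have hdeg : g.natDegree ≤ 2 * n := by
    obtain ⟨o, hov, hop⟩ := (hHEX (ks k s) F τ hT.tr hT.gen).2
    have htriv : Triv (k := k) s o := by
      intro c
      rcases eq_or_ne c 0 with hc | hc
      · rw [hc]
        exact hov.zero
      · have h2 := hop (C c) (C_ne_zero.2 hc)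
        rw [aeval_C, natDegree_C, Int.natCast_zero, neg_zero] at h2
        exact h2
    have h2 := hov.mul z (aeval τ q) hz (htr q hqm.ne_zero)
    rw [hq2τ, hop q2 hq20, hop q hqm.ne_zero, hq2d, hqd] at h2
    have h3 := hreg o hov htriv (by omega)
    have h4 := hov.mul f (aeval τ h) hf (htr h hh0)
    rw [hfh, hop g hg0, hop h hh0, hh, natDegree_pow, hqd] at h4
    push_cast at h4
    omega
  obtain ⟨c, a, hc, hcs, ha, -, hca⟩ := hSPN k F P Q y₀ z₀ s y z τ hT n g hdeg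
  refine ⟨a, c, ha, hc, hcs, ?_⟩
  rw [eq_div_iff hcs]
  have h5 : (τ ^ 2 - aeval s Q) ^ n ≠ 0 := pow_ne_zero n hT.q0
  apply mul_right_cancel₀ h5
  rw [← hca, ← hfh, hh, map_pow, hqτ]
  ring

end Pool.Agent.H5.UNT
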